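import Mathlib

set_option autoImplicit false

namespace Pool.Agent.U97.GZ

open Finset Filter Topology

/-- `1 / ∏_{1 ≤ i ≤ k} (2 ^ i - 1)` -/
noncomputable def ak (k : ℕ) : ℝ := ∏ i ∈ range k, (1 / ((2 : ℝ) ^ (i + 1) - 1))

noncomputable def eta : ℝ := ∏' i : ℕ, (1 - (1 / 2 : ℝ) ^ (i + 1))

theorem two_sub (k : ℕ) : (1 : ℝ) ≤ (2 : ℝ) ^ (k + 1) - 1 := by
  have h : (1 : ℝ) ≤ (2 : ℝ) ^ k := one_le_pow₀ (by norm_num)
  rw [pow_succ]
  linarith

theorem ak_succ (k : ℕ) : ak (k + 1) * ((2 : ℝ) ^ (k + 1) - 1) = ak k := by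
  have h := two_sub k
  unfold ak
  rw [prod_range_succ, mul_assoc, one_div_mul_cancel (by linarith), mul_one]

theorem ak_pos (k : ℕ) : 0 < ak k := by
  unfold ak
  refine prod_pos fun i _ => ?_
  have h := two_sub i
  positivity

theorem ak_zero : ak 0 = 1 := by simp [ak]

theorem ak_third (k : ℕ) : ak (k + 2) ≤ ak (k + 1) * (1 / 3) := by
  have h := ak_succ (k + 1)
  have h1 : (1 : ℝ) ≤ (2 : ℝ) ^ k := one_le_pow₀ (by norm_num)
  have h2 : (2 : ℝ) ^ (k + 1 + 1) = 4 * 2 ^ k := by ring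
  have h3 := ak_pos (k + 2)
  rw [h2] at h
  have e : ak (k + 1 + 1) = ak (k + 2) := rfl
  rw [e] at h
  nlinarith

theorem ak_geo (K j : ℕ) : ak (K + 1 + j) ≤ ak (K + 1) * (1 / 3) ^ j := by
  induction j with
  | zero => simp
  | succ j ih =>
    have h := ak_third (K + j)
    have e1 : K + j + 2 = K + 1 + (j + 1) := by ring
    have e2 : K + j + 1 = K + 1 + j := by ring
    rw [e1, e2] at h
    rw [pow_succ, ← mul_assoc]
    exact h.trans (mul_le_mul_of_nonneg_right ih (by norm_num))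

theorem sum_geo (K : ℕ) : Summable fun j : ℕ => ak (K + 1) * (1 / 3 : ℝ) ^ j :=
  (summable_geometric_of_lt_one (by norm_num) (by norm_num)).mul_left _

theorem sum_tail (K : ℕ) : Summable fun j : ℕ => ak (K + 1 + j) :=
  Summable.of_nonneg_of_le (fun j => (ak_pos _).le) (ak_geo K) (sum_geo K)

theorem tail_le (K : ℕ) : ∑' j : ℕ, ak (K + 1 + j) ≤ 3 / 2 * ak (K + 1) := by
  refine ((sum_tail K).tsum_le_tsum (ak_geo K) (sum_geo K)).trans ?_
  rw [tsum_mul_left, tsum_geometric_of_lt_one (by norm_num) (by norm_num)]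
  apply le_of_eq
  norm_num
  ring

theorem sum_ak : Summable ak := by
  rw [← summable_nat_add_iff 1]
  have h := sum_tail 0
  refine h.congr fun j => ?_
  congr 1
  ring

/-- the generating function -/
noncomputable def G (z : ℝ) : ℝ := ∑' k : ℕ, (-1 : ℝ) ^ k * ak k * z ^ k

theorem term_le {z : ℝ} (hz0 : 0 ≤ z) (hz1 : z ≤ 1) (k : ℕ) :
    ‖(-1 : ℝ) ^ k * ak k * z ^ k‖ ≤ ak k := by
  rw [norm_mul, norm_mul, norm_pow, norm_neg, norm_one, one_pow, one_mul, Real.norm_eq_abs,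
    abs_of_pos (ak_pos k), Real.norm_eq_abs, abs_of_nonneg (pow_nonneg hz0 k)]
  exact mul_le_of_le_one_right (ak_pos k).le (pow_le_one₀ hz0 hz1)

theorem sum_G {z : ℝ} (hz0 : 0 ≤ z) (hz1 : z ≤ 1) :
    Summable fun k : ℕ => (-1 : ℝ) ^ k * ak k * z ^ k :=
  Summable.of_norm_bounded sum_ak (term_le hz0 hz1)

theorem G_eq {z : ℝ} (hz0 : 0 ≤ z) (hz1 : z ≤ 1) : G z = (1 - z / 2) * G (z / 2) := by
  have hz2 : 0 ≤ z / 2 := by linarith
  have hz3 : z / 2 ≤ 1 := by linarith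
  have h1 := sum_G hz0 hz1
  have h2 := sum_G hz2 hz3
  have e1 : G z = 1 + ∑' k : ℕ, (-1 : ℝ) ^ (k + 1) * ak (k + 1) * z ^ (k + 1) := by
    unfold G
    rw [h1.tsum_eq_zero_add]
    simp [ak_zero]
  have e2 : G (z / 2) = 1 + ∑' k : ℕ, (-1 : ℝ) ^ (k + 1) * ak (k + 1) * (z / 2) ^ (k + 1) := by
    unfold G
    rw [h2.tsum_eq_zero_add]
    simp [ak_zero]
  have h3 : Summable fun k : ℕ => (-1 : ℝ) ^ (k + 1) * ak (k + 1) * (z / 2) ^ (k + 1) :=
    (summable_nat_add_iff 1).2 h2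
  have e3 : z / 2 * G (z / 2) = ∑' k : ℕ, z / 2 * ((-1 : ℝ) ^ k * ak k * (z / 2) ^ k) := by
    unfold G
    rw [tsum_mul_left]
  have h4 : Summable fun k : ℕ => z / 2 * ((-1 : ℝ) ^ k * ak k * (z / 2) ^ k) := h2.mul_left _
  have e4 : (1 - z / 2) * G (z / 2) = G (z / 2) - z / 2 * G (z / 2) := by ring
  rw [e4, e3]
  conv_rhs => rw [e2]
  rw [add_sub_assoc, ← h3.tsum_sub h4, e1]
  congr 1
  apply tsum_congr
  intro k
  have h5 := ak_succ k
  have h6 : (z / 2) ^ (k + 1) = z ^ (k + 1) / 2 ^ (k + 1) := div_pow _ _ _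
  have h7 : z / 2 * ((-1 : ℝ) ^ k * ak k * (z / 2) ^ k) =
      (-1 : ℝ) ^ k * ak k * (z / 2) ^ (k + 1) := by ring
  rw [h7, h6, ← h5, pow_succ (-1 : ℝ) k]
  have h8 : (2 : ℝ) ^ (k + 1) ≠ 0 := by positivity
  field_simp
  ring

/-- the partial products -/
noncomputable def P (n : ℕ) : ℝ := ∏ i ∈ range n, (1 - (1 / 2 : ℝ) ^ (i + 1))

theorem G_one (n : ℕ) : G 1 = P n * G ((1 / 2) ^ n) := by
  induction n with
  | zero => simp [P]
  | succ n ih =>
    have h := G_eq (z := (1 / 2 : ℝ) ^ n) (by positivity) (pow_le_one₀ (by norm_num) (by norm_num))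
    have e : (1 / 2 : ℝ) ^ n / 2 = (1 / 2) ^ (n + 1) := by ring
    rw [e] at h
    rw [ih, h]
    unfold P
    rw [prod_range_succ]
    ring

theorem G_near {z : ℝ} (hz0 : 0 ≤ z) (hz1 : z ≤ 1) : |G z - 1| ≤ 3 / 2 * z := by
  have h1 := sum_G hz0 hz1
  have e1 : G z - 1 = ∑' k : ℕ, (-1 : ℝ) ^ (k + 1) * ak (k + 1) * z ^ (k + 1) := by
    unfold G
    rw [h1.tsum_eq_zero_add]
    simp [ak_zero]
  rw [e1, ← Real.norm_eq_abs]
  have h2 : Summable fun k : ℕ => z * ak (0 + 1 + k) := (sum_tail 0).mul_left z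
  have h3 : ∀ k : ℕ, ‖(-1 : ℝ) ^ (k + 1) * ak (k + 1) * z ^ (k + 1)‖ ≤ z * ak (0 + 1 + k) := by
    intro k
    rw [norm_mul, norm_mul, norm_pow, norm_neg, norm_one, one_pow, one_mul, Real.norm_eq_abs,
      abs_of_pos (ak_pos _), Real.norm_eq_abs, abs_of_nonneg (pow_nonneg hz0 _)]
    have e : 0 + 1 + k = k + 1 := by ring
    rw [e, mul_comm z]
    refine mul_le_mul_of_nonneg_left ?_ (ak_pos _).le
    rw [pow_succ]
    exact mul_le_of_le_one_left hz0 (pow_le_one₀ hz0 hz1)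
  refine (tsum_of_norm_bounded h2.hasSum h3).trans ?_
  rw [tsum_mul_left]
  have h4 := tail_le 0
  have e5 : ak (0 + 1) = 1 := by simp [ak]; norm_num
  rw [e5] at h4
  nlinarith

theorem P_tendsto : Tendsto P atTop (𝓝 eta) := by
  have h : Multipliable fun i : ℕ => (1 - (1 / 2 : ℝ) ^ (i + 1)) := by
    have h1 : Summable fun i : ℕ => -(1 / 2 : ℝ) ^ (i + 1) :=
      ((summable_nat_add_iff 1).2
        (summable_geometric_of_lt_one (by norm_num : (0:ℝ) ≤ 1/2) (by norm_num))).neg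
    have h2 := Real.multipliable_one_add_of_summable h1
    simpa [sub_eq_add_neg] using h2
  exact h.hasProd.tendsto_prod_nat

theorem G_eta : G 1 = eta := by
  have h1 : Tendsto (fun n : ℕ => G ((1 / 2 : ℝ) ^ n)) atTop (𝓝 1) := by
    rw [tendsto_iff_dist_tendsto_zero]
    have h2 : Tendsto (fun n : ℕ => 3 / 2 * (1 / 2 : ℝ) ^ n) atTop (𝓝 0) := by
      have := (tendsto_pow_atTop_nhds_zero_of_lt_one (by norm_num : (0:ℝ) ≤ 1/2)
        (by norm_num)).const_mul (3 / 2 : ℝ)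
      rwa [mul_zero] at this
    refine squeeze_zero (fun n => dist_nonneg) (fun n => ?_) h2
    rw [Real.dist_eq]
    exact G_near (by positivity) (pow_le_one₀ (by norm_num) (by norm_num))
  have h3 := P_tendsto.mul h1
  rw [mul_one] at h3
  have h4 : Tendsto (fun _ : ℕ => G 1) atTop (𝓝 eta) := h3.congr fun n => (G_one n).symm
  exact tendsto_nhds_unique tendsto_const_nhds h4

theorem err (K : ℕ) : |∑ k ∈ range (K + 1), (-1 : ℝ) ^ k * ak k - eta| ≤ 3 / 2 * ak (K + 1) := by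
  have h1 := sum_G (z := 1) zero_le_one le_rfl
  simp only [one_pow, mul_one] at h1
  have e1 : eta = ∑' k : ℕ, (-1 : ℝ) ^ k * ak k := by
    rw [← G_eta]
    unfold G
    simp
  have h2 := h1.sum_add_tsum_nat_add (K + 1)
  rw [e1, ← h2, sub_add_cancel_left, abs_neg, ← Real.norm_eq_abs]
  have h3 : ∀ k : ℕ, ‖(-1 : ℝ) ^ (k + (K + 1)) * ak (k + (K + 1))‖ ≤ ak (K + 1 + k) := by
    intro k
    rw [norm_mul, norm_pow, norm_neg, norm_one, one_pow, one_mul, Real.norm_eq_abs,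
      abs_of_pos (ak_pos _), add_comm]
  exact (tsum_of_norm_bounded (sum_tail K).hasSum h3).trans (tail_le K)

theorem ak_small (K : ℕ) : 3 / 2 * ak (K + 2) ≤ (1 / 2 : ℝ) ^ (K + 1) := by
  induction K with
  | zero =>
    have e : ak 2 = 1 / 3 := by simp [ak, prod_range_succ]; norm_num
    rw [e]
    norm_num
  | succ K ih =>
    have h := ak_third (K + 1)
    have h2 := ak_pos (K + 2)
    have e : ak (K + 1 + 1) = ak (K + 2) := rfl
    rw [e] at h
    rw [pow_succ]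
    have e2 : ak (K + 1 + 2) = ak (K + 3) := rfl
    rw [e2] at h ⊢
    nlinarith

theorem num : 0.2887 < eta ∧ eta < 0.2888 := by
  have h := err 5
  have e0 : ∑ k ∈ range (5 + 1), (-1 : ℝ) ^ k * ak k = 1 - 1 + 1 / 3 - 1 / 21 + 1 / 315 - 1 / 9765 := by
    simp only [ak, sum_range_succ, prod_range_succ, range_zero, sum_empty, prod_empty]
    norm_num
  have e6 : ak (5 + 1) = 1 / 615195 := by
    simp only [ak, prod_range_succ, range_zero, prod_empty]
    norm_num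
  rw [e0, e6, abs_le] at h
  obtain ⟨h1, h2⟩ := h
  constructor
  · norm_num at h1 h2 ⊢
    linarith
  · norm_num at h1 h2 ⊢
    linarith

theorem lim : (∀ K : ℕ, |∑ k ∈ range (K + 1), (-1 : ℝ) ^ k * ak k - eta| ≤ (1 / 2 : ℝ) ^ K) ∧
    0.2887 < eta ∧ eta < 0.2888 := by
  refine ⟨fun K => ?_, num⟩
  cases K with
  | zero =>
    have h := num
    simp only [zero_add, range_one, sum_singleton, pow_zero, one_mul, ak_zero]
    rw [abs_le]
    constructor
    · norm_num at h ⊢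
      linarith [h.2]
    · norm_num at h ⊢
      linarith [h.1]
  | succ K => exact (err (K + 1)).trans (ak_small K)

end Pool.Agent.U97.GZ
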