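import Pool.Agent.U79.GZ.Stm
import Pool.Agent.U97.GZ.LIM0

/-! Project GZ (helper79), package LIM: Euler's identity with error terms. -/

set_option autoImplicit false

namespace Pool.Agent.U97.GZ

theorem t_LIM : Pool.Agent.U79.GZ.S_LIM := lim

end Pool.Agent.U97.GZ
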