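import Pool.Agent.U79.GZ.Stm

/-!
# Project GZ, package BON: the Bonferroni inequalities for subspaces
-/

set_option autoImplicit false

namespace Pool.Agent.U97.GZ

open Finset Pool.Agent.U79.GZ

lemma bon_pos (k : ℕ) : 0 < (2 : ℝ) ^ (k + 1) - 1 := by
  have : (1 : ℝ) < 2 ^ (k + 1) := one_lt_pow₀ (by norm_num) (by omega)
  linarith

/-- closed form of the partial sums -/
lemma bon_closed (N : ℝ) (K : ℕ) : ∑ k ∈ range (K + 1), (-1 : ℝ) ^ k * (ak k * Ik k N)
    = (-1) ^ K * ∏ i ∈ range K, ((N - 2 ^ (i + 1)) * (1 / ((2 : ℝ) ^ (i + 1) - 1))) := by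
  induction K with
  | zero => simp [ak, Ik]
  | succ K ih =>
    have h1 : Ik (K + 1) N = (∏ i ∈ range K, (N - 2 ^ (i + 1))) * (N - 1) := by
      unfold Ik
      rw [prod_range_succ', pow_zero]
    rw [sum_range_succ, ih, h1, prod_range_succ, ak, prod_range_succ, prod_mul_distrib]
    have hp := (bon_pos K).ne'
    rw [pow_succ (-1 : ℝ) K]
    have e : (N - 2 ^ (K + 1)) * (1 / ((2 : ℝ) ^ (K + 1) - 1))
        = (N - 1) * (1 / ((2 : ℝ) ^ (K + 1) - 1)) - 1 := by
      field_simp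
      ring
    rw [e]
    ring

theorem bon : S_BON := by
  intro n K
  rw [bon_closed]
  rcases Nat.eq_zero_or_pos n with rfl | hn
  · have e : (-1 : ℝ) ^ K * ∏ i ∈ range K, (((2 : ℝ) ^ 0 - 2 ^ (i + 1)) * (1 / ((2 : ℝ) ^ (i + 1) - 1)))
        = 1 := by
      rw [show ∏ i ∈ range K, (((2 : ℝ) ^ 0 - 2 ^ (i + 1)) * (1 / ((2 : ℝ) ^ (i + 1) - 1)))
        = ∏ _i ∈ range K, (-1 : ℝ) from prod_congr rfl fun i _ => by
          have hp := (bon_pos i).ne'
          field_simp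
          ring]
      rw [prod_const, card_range, ← mul_pow]
      norm_num
    rw [e]
    have h0 : Ik (K + 1) ((2 : ℝ) ^ 0) = 0 := by
      unfold Ik
      exact prod_eq_zero (mem_range.2 (Nat.succ_pos K)) (by norm_num)
    rw [h0]
    simp
  · rw [if_neg hn.ne', zero_sub, abs_neg, abs_mul, abs_pow, abs_neg, abs_one, one_pow, one_mul]
    have hR : ak (K + 1) * Ik (K + 1) (2 ^ n)
        = (∏ i ∈ range K, (((2 : ℝ) ^ n - 2 ^ (i + 1)) * (1 / ((2 : ℝ) ^ (i + 1) - 1))))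
          * (((2 : ℝ) ^ n - 1) * (1 / ((2 : ℝ) ^ (K + 1) - 1))) := by
      have h1 : Ik (K + 1) ((2 : ℝ) ^ n) = (∏ i ∈ range K, ((2 : ℝ) ^ n - 2 ^ (i + 1)))
          * ((2 : ℝ) ^ n - 1) := by
        unfold Ik
        rw [prod_range_succ', pow_zero]
      rw [h1, ak, prod_range_succ, prod_mul_distrib]
      ring
    rw [hR]
    rcases Nat.lt_or_ge K n with hKn | hKn
    · have hP : 0 ≤ ∏ i ∈ range K, (((2 : ℝ) ^ n - 2 ^ (i + 1)) * (1 / ((2 : ℝ) ^ (i + 1) - 1))) := by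
        refine prod_nonneg fun i hi => ?_
        have hi' : i + 1 ≤ n := by have := mem_range.1 hi; omega
        have h2 : (2 : ℝ) ^ (i + 1) ≤ 2 ^ n := pow_le_pow_right₀ (by norm_num) hi'
        have h3 := bon_pos i
        exact mul_nonneg (by linarith) (by positivity)
      rw [abs_of_nonneg hP]
      refine le_mul_of_one_le_right hP ?_
      have h3 := bon_pos K
      have h4 : (2 : ℝ) ^ (K + 1) ≤ 2 ^ n := pow_le_pow_right₀ (by norm_num) hKn
      rw [mul_one_div, le_div_iff₀ h3]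
      linarith
    · have hz : ∏ i ∈ range K, (((2 : ℝ) ^ n - 2 ^ (i + 1)) * (1 / ((2 : ℝ) ^ (i + 1) - 1))) = 0 := by
        refine prod_eq_zero (mem_range.2 (show n - 1 < K by omega)) ?_
        rw [Nat.sub_add_cancel hn, sub_self, zero_mul]
      rw [hz]
      simp

/-- Package BON. -/
theorem t_BON : S_BON := bon

end Pool.Agent.U97.GZ
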